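import Pool.Agent.W528.HA.Stm

/-! HA-AL (helper782): exponential sums with values in a simple algebraic extension of the
rationals have algebraic exponents. -/

set_option autoImplicit false

namespace Pool.Agent.W782.HA.AL

open Finset Polynomial

theorem main : Pool.Agent.W528.HA.AL := by
  intro E _ _ μ hμ S m hS hg a0 ha0
  classical
  obtain ⟨F, hF⟩ : ∃ F : IntermediateField ℚ E, F = IntermediateField.adjoin ℚ {μ} := ⟨_, rfl⟩
  have halg : Algebra.IsAlgebraic ℚ F := by
    rw [hF]
    exact IntermediateField.isAlgebraic_adjoin_simple hμ.isIntegral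
  obtain ⟨π, hπ⟩ := LinearMap.exists_leftInverse_of_injective (Algebra.linearMap F E)
    (LinearMap.ker_eq_bot.2 (algebraMap F E).injective)
  have hπ1 : ∀ c : F, π (algebraMap F E c) = c := fun c => LinearMap.congr_fun hπ c
  have hp : ∀ n, 1 ≤ n → ∃ c : F, algebraMap F E c = ∑ a ∈ S, (m a : E) * a ^ n := by
    intro n hn
    obtain ⟨g, hg'⟩ := hg n hn
    refine ⟨⟨aeval μ g, ?_⟩, hg'⟩
    rw [hF]
    exact IntermediateField.algebra_adjoin_le_adjoin ℚ {μ} (aeval_mem_adjoin_singleton ℚ μ)
  choose! pF hpF using hp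
  set Q : E[X] := ∏ a ∈ S, (X - C a) with hQ
  have hQm : Q.Monic := monic_prod_of_monic _ _ fun a _ => monic_X_sub_C a
  have hQ0 : ∀ a ∈ S, Q.eval a = 0 := by
    intro a ha
    rw [hQ, eval_prod]
    exact Finset.prod_eq_zero ha (by simp)
  set Q' : F[X] := ∑ k ∈ range (Q.natDegree + 1), monomial k (π (Q.coeff k)) with hQ'
  have hQ'c : Q'.coeff Q.natDegree = 1 := by
    rw [hQ', finsetSum_coeff]
    simp only [coeff_monomial]
    rw [Finset.sum_ite_eq', if_pos (by simp)]
    have h := hQm.coeff_natDegree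
    rw [h, ← map_one (algebraMap F E), hπ1]
  have h1 : ∀ n, 1 ≤ n → ∑ a ∈ S, (m a : E) * aeval a Q' * a ^ n = 0 := by
    intro n hn
    have e1 : ∑ k ∈ range (Q.natDegree + 1), Q.coeff k * ∑ a ∈ S, (m a : E) * a ^ (n + k) = 0 := by
      have : ∑ k ∈ range (Q.natDegree + 1), Q.coeff k * ∑ a ∈ S, (m a : E) * a ^ (n + k) =
          ∑ a ∈ S, (m a : E) * a ^ n * Q.eval a := by
        simp only [Finset.mul_sum, eval_eq_sum_range]
        rw [Finset.sum_comm]
        refine Finset.sum_congr rfl fun a _ => Finset.sum_congr rfl fun k _ => ?_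
        rw [pow_add]; ring
      rw [this]
      exact Finset.sum_eq_zero fun a ha => by rw [hQ0 a ha, mul_zero]
    have e2 : ∑ k ∈ range (Q.natDegree + 1), π (Q.coeff k) * pF (n + k) = 0 := by
      have := congrArg π e1
      rw [map_sum, map_zero] at this
      rw [← this]
      refine Finset.sum_congr rfl fun k _ => ?_
      rw [← hpF (n + k) (by omega), mul_comm (Q.coeff k), ← Algebra.smul_def, map_smul,
        smul_eq_mul, mul_comm]
    have e3 : ∑ k ∈ range (Q.natDegree + 1),
        algebraMap F E (π (Q.coeff k)) * ∑ a ∈ S, (m a : E) * a ^ (n + k) = 0 := by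
      have := congrArg (algebraMap F E) e2
      rw [map_sum, map_zero] at this
      rw [← this]
      refine Finset.sum_congr rfl fun k _ => ?_
      rw [map_mul, hpF (n + k) (by omega)]
    rw [← e3]
    simp only [Finset.mul_sum]
    rw [Finset.sum_comm]
    refine Finset.sum_congr rfl fun a _ => ?_
    rw [hQ', map_sum, Finset.mul_sum, Finset.sum_mul]
    refine Finset.sum_congr rfl fun k _ => ?_
    rw [aeval_monomial, pow_add]; ring
  set P : E[X] := ∏ b ∈ S.erase a0, (X - C b) with hP
  have h2 : ∑ a ∈ S, (m a : E) * aeval a Q' * (a * P.eval a) = 0 := by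
    have : ∀ a, a * P.eval a = ∑ j ∈ range (P.natDegree + 1), P.coeff j * a ^ (j + 1) := by
      intro a
      rw [eval_eq_sum_range, Finset.mul_sum]
      exact Finset.sum_congr rfl fun j _ => by ring
    simp only [this, Finset.mul_sum]
    rw [Finset.sum_comm]
    refine Finset.sum_eq_zero fun j _ => ?_
    have e : ∑ a ∈ S, (m a : E) * aeval a Q' * (P.coeff j * a ^ (j + 1)) =
        P.coeff j * ∑ a ∈ S, (m a : E) * aeval a Q' * a ^ (j + 1) := by
      rw [Finset.mul_sum]; exact Finset.sum_congr rfl fun a _ => by ring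
    rw [e, h1 (j + 1) (by omega), mul_zero]
  rw [Finset.sum_eq_single a0] at h2
  · have hm : (m a0 : E) ≠ 0 := by
      exact_mod_cast (hS a0 ha0).2.ne'
    have hP0 : P.eval a0 ≠ 0 := by
      rw [hP, eval_prod, Finset.prod_ne_zero_iff]
      intro b hb
      rw [eval_sub, eval_X, eval_C, sub_ne_zero]
      exact (Finset.ne_of_mem_erase hb).symm
    have hz : aeval a0 Q' = 0 := by
      rcases mul_eq_zero.1 h2 with h | h
      · rcases mul_eq_zero.1 h with h | h
        · exact absurd h hm
        · exact h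
      · exact absurd h (mul_ne_zero (hS a0 ha0).1 hP0)
    have hF0 : IsAlgebraic F a0 := ⟨Q', fun h => by rw [h] at hQ'c; simp at hQ'c, hz⟩
    exact hF0.restrictScalars ℚ
  · intro b hb hne
    have : P.eval b = 0 := by
      rw [hP, eval_prod]
      exact Finset.prod_eq_zero (Finset.mem_erase.2 ⟨hne, hb⟩) (by simp)
    rw [this, mul_zero, mul_zero]
  · intro h
    exact absurd ha0 h

end Pool.Agent.W782.HA.AL
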